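import Pool.Agent.Run7.h567.GO.AllBut

/-!
# MP_80bee4_ag: geometric origin of lisse l-adic sheaves in higher dimension

`X` is a smooth variety over a finite field, `Γ` the absolute Galois group of its function field `K`,
`V` the set of the closed points of `X`; a set of closed points is large if its complement has
density zero (or a similar notion for which Chebotarev's theorem holds). `(ρ l)` is a compatible
system of irreducible representations of dimension `n ≥ 2` with Frobenius polynomials `h v`, for
example one irreducible lisse sheaf, or all its companions.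

`ρ` comes from geometry if and only if there are a smooth projective variety `Y` over `K` and
integers `i`, `j` such that for a large set of closed points `v` all but at most ONE of the Frobenius
eigenvalues of `ρ` at `v` are Frobenius eigenvalues of `H^i(Y)(j)` at `v`; then all `ρ l` are in the
tensor category generated by this `H^i(Y)(j)`.

The proof was written by helper300, helper590, helper646, helper842, helper930, helper973 and
helper567.
-/

set_option autoImplicit false

namespace Pool.Agent.Results.MP_80bee4_ag.AllButOneEigenvalue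

open Run7.h567.GO Polynomial

theorem result (Γ : Type) [Group Γ] [TopologicalSpace Γ] (V : Type) (D : FrobData Γ V)
    (F : Type) [Field F] (Λ : Type) [Nonempty Λ]
    (E : Λ → Type) [∀ l, Field (E l)] [∀ l, CharZero (E l)] [∀ l, IsAlgClosed (E l)]
    [∀ l, TopologicalSpace (E l)] [∀ l, IsTopologicalRing (E l)] [∀ l, T2Space (E l)]
    (ι : ∀ l, F →+* E l) (𝓗 : Cohomology D E ι) (n : ℕ) (hn : 2 ≤ n)
    (ρ : ∀ l, MRep Γ (E l) n) (hρ : ∀ l, Irred (ρ l))
    (h : V → F[X]) (hh : ∀ l, HasFrobPoly D (ι l) (ρ l) h) :
    List.TFAE [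
      ∃ l, 𝓗.Arises l (ρ l),
      ∀ l, 𝓗.Arises l (ρ l),
      ∃ x : 𝓗.I, ∀ l, InCat (𝓗.H l x) (ρ l),
      ∃ x : 𝓗.I, D.Large {v | h v ∣ 𝓗.P x v ^ n},
      ∃ x : 𝓗.I, D.Large {v | ∃ q, q ∣ h v ∧ q ∣ 𝓗.P x v ^ n ∧ n ≤ q.natDegree + 1}] :=
  compatible_one 𝓗 hn ρ hρ h hh

end Pool.Agent.Results.MP_80bee4_ag.AllButOneEigenvalue
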