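import Pool.Agent.Run7.h199.ZO.Eff2

/-!
# One percent of the tensor powers decides about geometric origin

Let `X` be a smooth irreducible variety over a finite field, `K` its function field, and let `𝒞` be the
category of the semisimple continuous `ℚ̄_ℓ`-representations of `Gal(K̄ / K)` which are unramified on an open
subset of `X`. Let `𝒢` be the class of those whose irreducible constituents are, after a Tate twist,
subquotients of some `H^i(Y ⊗ K̄, ℚ̄_ℓ)`, `Y` a variety over `K`. This class is stable under direct sums,
subobjects, tensor products (Künneth formula) and duals (the constituents also occur in the cohomology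
of smooth projective varieties, by alterations). By Tannaka duality, with an isomorphism `ℚ̄_ℓ ≅ ℂ`, the
category `𝒞` is the category of the representations of a pro-reductive group `Γ` and `𝒢` is the class of
the representations on which a normal subgroup `N` acts trivially; the largest subobject of `V` in `𝒢`
is `V^N`. The representation of `ℰ` as in Q1 is a homomorphism `ρ : Γ → GL_b(ℂ)`, and `ℰ` has the
property of Q1 if and only if `ρ(N) = 1`. As `det ℰ` has finite order it is in `𝒢`, so `det ρ(g) = 1` for
`g` in `N`. The representation `ρ` is irreducible on every subgroup of finite index (`LieIrr`) if and only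
if `ℰ` is irreducible on every finite étale covering of every open subset of `X`. (On a finite étale
covering an irreducible `ℰ` becomes a direct sum of such sheaves: the covering is chosen so that the
Zariski closure of the monodromy group is connected. So Q1 for all `X` is Q1 for such sheaves.)

The theorem is about arbitrary groups `Γ` and normal subgroups `N`.

**Theorem.** Let `V` be a complex representation of `Γ` of dimension `b ≥ 1` which is irreducible on every
subgroup of finite index. Call `V` *thin* if for all `n ≥ 0` and all representations `W` of `Γ` the vectors of `V^n ⊗ W` which are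
fixed by `N` form a space of dimension at most `(b / (2 (n + 1)))^(1/2) b^n dim W`, where `V^n` is the
`n`-th tensor power. So for `n ≥ 5000 b` this is at most one percent, for all `W`.

1. Exactly one of the following is true: `N` acts on `V` by scalars; or `V` is thin.
2. `N` acts trivially on `V` if and only if there is one `n` such that the share of the fixed vectors in
   `V^n` is larger than `(b / (2 (n + 1)))^(1/2)` and there is a nonzero fixed vector in `V^(n+1)`.
3. Let `det(g)^h = 1` on `V` for all `g` in `N`. Then `N` acts trivially on `V` if and only if there is one `n`
   such that the share of the fixed vectors in `V^n` is larger than `(b / (2 (n + 1)))^(1/2)`, and for some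
   `m` prime to `b h` there is a nonzero fixed vector in `V^m`.
4. If `det(g)^h = 1` on `V` for all `g` in `N`, then `V` is thin, or for each `n` all vectors or only
   the vector zero of `V^n` are fixed by `N`, and all if `b h` divides `n`.

So (with `h = 1`) `ℰ` has the property of Q1 if for one `n ≥ 5000 b` one percent of `ℰ^n` has it and for some `m`
prime to the rank `b` some nonzero part of `ℰ^m` has it. If `ℰ ⊗ ℰ^∨` does not have the property then
the part of `ℰ^n ⊗ W` which has it has rank at most `(b / (2 (n + 1)))^(1/2) b^n rank W`, for all `n` and all
`W`; otherwise `ℰ^b` has it.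

The proof. Let `g` be in `N` with eigenvalues `l_1, ..., l_b` on `V`. By comparing traces of polynomials in
`g`, the space of the fixed vectors of `g` in `V^n ⊗ W` has dimension at most `dim W` times the largest
number of words of length `n` in `l_1, ..., l_b` with a given product. Let the ratio of `l_i` and `l_j` have order
larger than `n`. If all letters of a word other than `l_i`, `l_j` are given (and the `k` places of these
two) then the product determines how often `l_i` occurs. So the number of words is at most the sum of
`binom(n, k) (b - 2)^(n - k) binom(k, k / 2)` over `k`, and by the inequality of Cauchy and Schwarz and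
`binom(k, k / 2)^2 ≤ 4^k / (k + 1)` this is at most `(b / (2 (n + 1)))^(1/2) b^n`. So if `V` is not thin
then there is an `n` such that all ratios of eigenvalues of elements of `N` have order at most `n`. Then
the traces of the set `N_1` of the multiples of determinant one of elements of `N` take only finitely
many values. The linear span of `N_1` is an algebra which is normalised by `Γ`, and as `V` is
irreducible the trace form of this algebra is nondegenerate. So `N_1` is finite (Burnside's argument),
and a subgroup `H` of finite index in `Γ` commutes with it. If `V` is irreducible on `H` then the elements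
of `N` act as scalars (Schur's lemma). If `N` acts by scalars then `V` is not thin: take the dual of `V^n`
for `W`.
-/

set_option autoImplicit false

open Filter Topology Matrix Run7.h199.ZO

namespace Pool.Agent.Results.MP_80bee4_ag.OnePercent

/-- **The one percent law.** -/
theorem result {Γ : Type*} [Group Γ] (N : Subgroup Γ) [N.Normal] {b : ℕ} (hb : 0 < b)
    (ρ : Γ →* Matrix (Fin b) (Fin b) ℂ) (hρ : LieIrr ρ) :
    ((∀ g ∈ N, ∃ c : ℂ, ρ g = c • 1) ↔ ¬ Thin ρ N) ∧
    (Thin ρ N → ∀ n : ℕ, share ρ N n ≤ Real.sqrt (b / (2 * (n + 1)))) ∧
    ((∀ g ∈ N, ρ g = 1) ↔
      ∃ n : ℕ, Real.sqrt (b / (2 * (n + 1))) < share ρ N n ∧ 0 < share ρ N (n + 1)) ∧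
    ∀ h : ℕ, (∀ g ∈ N, (ρ g).det ^ h = 1) →
      ((∀ g ∈ N, ρ g = 1) ↔ (∃ n : ℕ, Real.sqrt (b / (2 * (n + 1))) < share ρ N n) ∧
        ∃ m : ℕ, m.Coprime (b * h) ∧ 0 < share ρ N m) ∧
      (((∀ n, fix ρ N n = ⊤ ∨ fix ρ N n = ⊥) ∧ ∀ n, b * h ∣ n → fix ρ N n = ⊤) ∨ Thin ρ N) :=
  ⟨scalar_iff_thin hb hρ, fun h => h.share_le hb, trivial_iff_thin hb hρ,
    fun _ hdet => ⟨trivial_iff_thin' hb hρ hdet, all_or_thin hb hρ hdet⟩⟩

end Pool.Agent.Results.MP_80bee4_ag.OnePercent
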