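import Pool.Agent.Run7.h293.FB.Defs

/-!
# Geometric origin of lisse sheaves: products of curves and fibrations over curves

`Varieties` is a collection of smooth varieties over finite fields of characteristic `p` with their
fundamental groups and the homomorphisms given by dominant morphisms and by fibrations. `Origin K`
lists the formal properties of the representations of geometric origin with coefficients in
`K = ℚ̄_l`: pullback and direct image for dominant morphisms, subquotients and tensor products,
Lafforgue's theorem for curves, and the fact that a constant twist is not necessary if the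
determinant is of finite order. `Built X` says that `X` is obtained from curves by taking products
and images under dominant morphisms, for instance that `X` is dominated by a product of curves.

The proof: let `p : U → S` be a fibration with geometric generic fibre `F`, `E` a lisse sheaf on `U`
and `B` a sheaf of geometric origin on `U` with a nonzero homomorphism `B|F → E|F`. The lisse sheaf
`M = p_* Hom(B, E)` on `S` is a representation of the fundamental group of `S`, and the evaluation
`B ⊗ p^* M → E` is not zero.
-/

set_option autoImplicit false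

namespace Pool.Agent.Results.MP_80bee4_ag.ProductsAndFibrations

open Pool.Agent.Run7.h293.FB

variable {K : Type} [Field K] [TopologicalSpace K] {𝒱 : Varieties}

/-- Q1 for `X`: every irreducible lisse sheaf on `X` whose determinant is of finite order is of
geometric origin. -/
def GeometricOriginFor (𝒪 : Origin K 𝒱) (X : 𝒱.Obj) : Prop :=
  ∀ E : FRep K (𝒱.grp X), E.Continuous → E.Irreducible → E.FiniteDet → E ∈ 𝒪.orig X

/-- The criterion for a dominant morphism `U → X` and a fibration `U → S` over a curve: an irreducible
lisse sheaf `E` on `X` with determinant of finite order is of geometric origin if its restriction to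
the geometric generic fibre of `U → S` is of geometric origin. -/
def OverCurve (𝒪 : Origin K 𝒱) (T : 𝒪.Spreading) {X U S : 𝒱.Obj} (f : 𝒱.grp U →* 𝒱.grp X)
    (p : 𝒱.grp U →* 𝒱.grp S) : Prop :=
  ∀ E : FRep K (𝒱.grp X), E.Continuous → E.Irreducible → E.FiniteDet →
    E.comap f ∈ T.FibOrig p → E ∈ 𝒪.orig X

/-- The criterion for a dominant morphism `U → X` and a fibration `U → S`: an irreducible lisse sheaf
`E` on `X` with determinant of finite order is of geometric origin if on the geometric generic fibre
of `U → S` there is a nonzero homomorphism to `E` from a lisse sheaf `B` on `U` which is of geometric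
origin up to a constant twist. -/
def Criterion (𝒪 : Origin K 𝒱) {X U S : 𝒱.Obj} (f : 𝒱.grp U →* 𝒱.grp X)
    (p : 𝒱.grp U →* 𝒱.grp S) : Prop :=
  ∀ (E : FRep K (𝒱.grp X)) (B : FRep K (𝒱.grp U)) (φ : B.V →ₗ[K] E.V), E.Continuous →
    E.Irreducible → E.FiniteDet → B.Continuous → 𝒪.Tw U B → φ ≠ 0 →
    Origin.FibreMap f p B E φ → E ∈ 𝒪.orig X

theorem result (K : Type) [Field K] [TopologicalSpace K] [IsTopologicalRing K] (𝒱 : Varieties)
    (𝒪 : Origin K 𝒱) :
    (∀ X : 𝒱.Obj, 𝒱.Built X → GeometricOriginFor 𝒪 X) ∧
    (∀ (T : 𝒪.Spreading) (X U S : 𝒱.Obj) (f : 𝒱.grp U →* 𝒱.grp X) (p : 𝒱.grp U →* 𝒱.grp S),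
      𝒱.Dom f → 𝒱.Fib p → 𝒱.Curve S → OverCurve 𝒪 T f p) ∧
    (∀ (X U S : 𝒱.Obj) (f : 𝒱.grp U →* 𝒱.grp X) (p : 𝒱.grp U →* 𝒱.grp S),
      𝒱.Dom f → 𝒱.Fib p → 𝒱.Built S → Criterion 𝒪 f p) :=
  ⟨fun X hX E hρ hI hd => 𝒪.weil X E hρ hI hd (Origin.allTw_of_built hX E hρ hI),
    fun T X _ _ _ _ hf hp hS E hρ hI hd h =>
      𝒪.weil X E hρ hI hd (Origin.over_curve T hf hp hS hρ hI h),
    fun X _ _ _ _ hf hp hS E _ _ hρ hI hd hβ hB hφ hN =>
      𝒪.weil X E hρ hI hd (Origin.fibration hf hp (Origin.allTw_of_built hS) hρ hI hβ hB hφ hN)⟩

end Pool.Agent.Results.MP_80bee4_ag.ProductsAndFibrations
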