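import Pool.Agent.Run7.h784.FinF

/-!
# Irreducible lisse sheaves of small rank on families of open subsets of affine space

Let `k` be any field (for instance a finite field, or the function field of a variety over a finite
field), `l` a prime number different from the characteristic of `k`, `g` a nonzero polynomial in `n`
variables over `k` and `X` the open subset `g ≠ 0` of affine `n`-space over `k`.  Let `E` be a lisse
`l`-adic sheaf on `X` whose reduction modulo `l` has unipotent geometric monodromy.  Let `σ` be an
element of the absolute Galois group of `k(t₁, …, tₙ)` which raises the `l`-th roots of unity to the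
power `c` and fixes the irreducible components of the hypersurface `g = 0` over the separable
closure of `k`, and let `N` be the order of `c` modulo `l`.  Suppose that the rank of `E` is less than
`N`, or, more generally, that the set of the eigenvalues of the reduction of `σ` contains no coset of
the group generated by `c`.  Then all products of `N` matrices `ρ h - 1`, `h` in the geometric
fundamental group, are zero.  If `E` is irreducible over a field that contains the coefficients, then
`E` is the inverse image of a sheaf on the spectrum of `k`; if moreover `k` is finite, the field is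
algebraically closed and the determinant has finite order, then `E` has finite monodromy.
-/

set_option autoImplicit false

open IsLocalRing

namespace Pool.Agent.Results.MP_80bee4_ag.SmallRankReduction

variable {n : ℕ} (k K Ω : Type) [Field k] [Field K] [Field Ω]
  [Algebra (MvPolynomial (Fin n) k) K] [Algebra k K] [Algebra K Ω] [Algebra k Ω]

/-- the field generated over `K` by the elements of `Ω` that are algebraic over `k`; for `K` the
rational function field `k(t₁, …, tₙ)` and `Ω` its separable closure, this is `k'(t₁, …, tₙ)` with `k'`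
the separable closure of `k` -/
noncomputable abbrev geomField : IntermediateField K Ω :=
  IntermediateField.adjoin K {x : Ω | IsAlgebraic k x}

/-- the geometric Galois group, the absolute Galois group of `k'(t₁, …, tₙ)` -/
noncomputable abbrev GeomGroup : Subgroup Gal(Ω/K) := (geomField k K Ω).fixingSubgroup

variable {k}

/-- the coordinate ring `k[t₁, …, tₙ, 1 / g]` of the open subset `X`, `g ≠ 0`, of affine space -/
noncomputable def coordRing (g : MvPolynomial (Fin n) k) : Subalgebra k K :=
  Algebra.adjoin k (Set.range (algebraMap (MvPolynomial (Fin n) k) K) ∪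
    {(algebraMap (MvPolynomial (Fin n) k) K g)⁻¹})

/-- the integral closure of the coordinate ring of `X` in `Ω` -/
noncomputable def intRing (g : MvPolynomial (Fin n) k) : Subring Ω :=
  (integralClosure (coordRing K g) Ω).toSubring

variable {K Ω}

/-- `τ` lies in the inertia group at the ideal `P`: `τ y - y` lies in `P` for all `y`. -/
def InInertia {g : MvPolynomial (Fin n) k} (P : Ideal (intRing K Ω g)) (τ : Gal(Ω/K)) : Prop :=
  ∀ y : intRing K Ω g, ∃ z ∈ P, (z : Ω) = τ (y : Ω) - (y : Ω)

/-- `ρ` is a representation of the fundamental group of `X` (a lisse sheaf on `X`): it is trivial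
on the inertia groups at all maximal ideals of the integral closure of the coordinate ring. -/
def Lisse (g : MvPolynomial (Fin n) k) {r : ℕ} {A : Type} [CommRing A]
    (ρ : Gal(Ω/K) →* GL (Fin r) A) : Prop :=
  ∀ P : Ideal (intRing K Ω g), P.IsMaximal → ∀ τ : Gal(Ω/K), InInertia P τ → ρ τ = 1

/-- The representation of the absolute Galois group of `K` on `Λ ^ r` is irreducible: `r` is
positive and the only invariant subspaces are `0` and `Λ ^ r`. -/
def Irreducible {r : ℕ} {A : Type} [CommRing A] (Λ : Type) [Field Λ] [Algebra A Λ]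
    (ρ : Gal(Ω/K) →* GL (Fin r) A) : Prop :=
  0 < r ∧ ∀ W : Submodule Λ (Fin r → Λ),
    (∀ g, ∀ w ∈ W, Matrix.mulVec ((ρ g : Matrix (Fin r) (Fin r) A).map (algebraMap A Λ)) w ∈ W) →
    W = ⊥ ∨ W = ⊤

/-- the determinant of `ρ` has finite order -/
def FiniteDet {r : ℕ} {A : Type} [CommRing A] (ρ : Gal(Ω/K) →* GL (Fin r) A) : Prop :=
  ∃ m : ℕ, m ≠ 0 ∧ ∀ g, (ρ g : Matrix (Fin r) (Fin r) A).det ^ m = 1

/-- the geometric monodromy is trivial -/
def GeomConstant (k : Type) [Field k] [Algebra k Ω] {r : ℕ} {A : Type} [CommRing A]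
    (ρ : Gal(Ω/K) →* GL (Fin r) A) : Prop :=
  ∀ h ∈ GeomGroup k K Ω, ρ h = 1

/-- The reduction of `ρ` has unipotent geometric monodromy: for all `h` in the geometric Galois
group, some power of `ρ h - 1` has all entries in the maximal ideal. -/
def ResiduallyGeomUnipotent (k : Type) [Field k] [Algebra k Ω] {r : ℕ} {A : Type} [CommRing A]
    [IsLocalRing A] (ρ : Gal(Ω/K) →* GL (Fin r) A) : Prop :=
  ∀ h ∈ GeomGroup k K Ω, ∃ M : ℕ, ∀ i j,
    (((ρ h : Matrix (Fin r) (Fin r) A) - 1) ^ M) i j ∈ maximalIdeal A

/-- all products of `N` of the matrices `ρ h - 1`, `h` in the geometric Galois group, are zero -/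
def GeomProductsVanish (k : Type) [Field k] [Algebra k Ω] {r : ℕ} {A : Type} [CommRing A]
    (ρ : Gal(Ω/K) →* GL (Fin r) A) (N : ℕ) : Prop :=
  ∀ h : Fin N → Gal(Ω/K), (∀ s, h s ∈ GeomGroup k K Ω) →
    (List.ofFn fun s => (ρ (h s) : Matrix (Fin r) (Fin r) A) - 1).prod = 0

/-- For every `x` in an algebraic closure of `F`, one of `x, x c, …, x c ^ (N - 1)` is not an
eigenvalue of the matrix `T`. -/
def NoCoset {F : Type} [Field F] {r : ℕ} (T : Matrix (Fin r) (Fin r) F) (c : F) (N : ℕ) : Prop :=
  ∀ x : AlgebraicClosure F, ∃ i < N,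
    ¬ (T.charpoly.map (algebraMap F (AlgebraicClosure F))).IsRoot
      (x * algebraMap F (AlgebraicClosure F) c ^ i)

/-- `σ` fixes the irreducible components of the hypersurface `g = 0` over the separable closure `k'`
of `k`: for every divisor `a` of `g` in the ring of polynomials over `k'`, the element `σ a` is the
product of `a` and a constant. -/
def FixesComponents (g : MvPolynomial (Fin n) k) (σ : Gal(Ω/K)) : Prop :=
  ∀ a : MvPolynomial (Fin n) (algebraicClosure k Ω),
    a ∣ MvPolynomial.map (algebraMap k (algebraicClosure k Ω)) g →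
    ∃ c : Ω, IsAlgebraic k c ∧
      σ (MvPolynomial.aeval (fun i => algebraMap K Ω
        (algebraMap (MvPolynomial (Fin n) k) K (MvPolynomial.X i))) a) =
      c * MvPolynomial.aeval (fun i => algebraMap K Ω
        (algebraMap (MvPolynomial (Fin n) k) K (MvPolynomial.X i))) a

theorem result (k : Type) [Field k] (n : ℕ)
    (K : Type) [Field K] [Algebra (MvPolynomial (Fin n) k) K]
    [IsFractionRing (MvPolynomial (Fin n) k) K] [Algebra k K]
    [IsScalarTower k (MvPolynomial (Fin n) k) K]
    (Ω : Type) [Field Ω] [Algebra K Ω] [IsSepClosure K Ω] [Algebra k Ω] [IsScalarTower k K Ω]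
    (g : MvPolynomial (Fin n) k) (hg : g ≠ 0)
    (l : ℕ) (hl : l.Prime) (hlk : (l : k) ≠ 0)
    (A : Type) [CommRing A] [IsDomain A] [IsLocalRing A] [IsNoetherianRing A] [TopologicalSpace A]
    (hA : IsAdic (maximalIdeal A)) (hfin : Finite (ResidueField A))
    (hlA : (l : A) ∈ maximalIdeal A)
    (r : ℕ) (ρ : Gal(Ω/K) →* GL (Fin r) A) (hρ : Continuous ρ) (hlisse : Lisse g ρ)
    (hres : ResiduallyGeomUnipotent k ρ)
    (σ : Gal(Ω/K)) (c : ℕ) (hσ : ∀ z : Ω, z ^ l = 1 → σ z = z ^ c) (hσg : FixesComponents g σ)
    (h : r < orderOf (c : ZMod l) ∨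
      NoCoset ((ρ σ : Matrix (Fin r) (Fin r) A).map (residue A)) (c : ResidueField A)
        (orderOf (c : ZMod l))) :
    GeomProductsVanish k ρ (orderOf (c : ZMod l)) ∧
      ∀ (Λ : Type) [Field Λ] [Algebra A Λ] [FaithfulSMul A Λ], Irreducible Λ ρ →
        GeomConstant k ρ ∧
          (Finite k → IsAlgClosed Λ → FiniteDet ρ → (Set.range ρ).Finite) := by
  have hsc : IsSepClosed Ω := IsSepClosure.sep_closed K
  have hgal : IsGalois K Ω := IsSepClosure.isGalois
  have hM : Run7.h784.aug (GeomGroup k K Ω) ρ ^ (orderOf (c : ZMod l)) = ⊥ :=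
    Run7.h784.main_small (ι := Fin n) (k := k) (K := K) (Ω := Ω) hg hl hlk hA hfin hlA
      ρ hρ (fun τ ⟨P, hP, hτ⟩ => hlisse P hP τ hτ) hres σ hσ hσg h
  refine ⟨fun h hh => Run7.h784.prod_of_aug ρ hM h hh, fun Λ _ _ _ hirr => ?_⟩
  have hinj : Function.Injective (algebraMap A Λ) := FaithfulSMul.algebraMap_injective A Λ
  have hconst : ∀ x ∈ GeomGroup k K Ω, ρ x = 1 := by
    intro x hx
    refine Run7.h784.trivial_of_semisimple' (Λ := Λ) hinj (GeomGroup k K Ω) ρ hM (fun W hW => ?_)
      ⟨x, hx⟩
    rcases hirr.2 W hW with h | h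
    · exact ⟨⊤, by rw [h]; exact isCompl_bot_top, fun _ _ _ => trivial⟩
    · refine ⟨⊥, by rw [h]; exact isCompl_top_bot, fun g w hw => ?_⟩
      rw [Submodule.mem_bot] at hw ⊢
      rw [hw, Matrix.mulVec_zero]
  refine ⟨hconst, fun hk hΛ hdet => ?_⟩
  obtain ⟨m, hm, hdet⟩ := hdet
  exact Run7.h784.finite_of_irred hinj ρ (Run7.h784.comm_of_geomConstant (k := k) ρ hconst)
    hirr.2 hm hdet

end Pool.Agent.Results.MP_80bee4_ag.SmallRankReduction
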